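import Mathlib
import Pool.Agent.Helper5.PE.Alg

/-!
# Several algebraic multiples of a typical point have independent digits

Q1 asks whether every digit occurs infinitely often in `√2 * Y` for `Y = 1`. We show: for EVERY ergodic
stationary process `(y_j)`, `j ∈ ℤ`, of base `b` digits of positive entropy (its present `y₀` is not
determined by its past), `Y = 0.y₀y₁y₂…`, all real algebraic numbers `x₁, …, x_r` (for instance `√2, √3, √5,
√6, ∛2, …`) such that `1, x₁, …, x_r` are linearly independent over the rational numbers, and all real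
numbers `c₁, …, c_r`: almost surely the numbers `x_i Y + c_i` are normal in base `b`, and the digits of
`y`, `x₁ Y + c₁, …, x_r Y + c_r` are asymptotically independent, along every set `S` of places fixed in
advance. The same holds for real numbers `x_i` (not necessarily algebraic) such that no nontrivial
combination of them with integer coefficients is rational or a Liouville number. (The hypothesis of
linear independence is necessary: the digits of `x₁ Y` and `(m x₁ + q) Y`, `Y`, are not independent.)

Proof. For an integer vector `m ≠ 0` the sums of `e(b^n (X Y + c))`, `X = Σ m_i x_i`, along the places of `S`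
where a given word stands in `y`, are `o(N)`. This is proved as follows. Let `P` be the past and
`Q_l = E[e(X B_l) q ∘ S^l | P]`, where `B_l` is the integer with the digits `y₀ … y_{l-1}` and `q` is a
bounded function of the past. By orthogonality `‖e(b^l X B_k) Q_l ∘ S^k - Q_{l+k}‖² = ‖Q_l‖² - ‖Q_{l+k}‖²`.
If `Q_l` does not tend to `0`, then, by ergodicity, the past, the digits `y_{K'} … y_{K'+K-1}`,
`K ≈ κ K'`, and few bits determine the number `X B_{K'}` mod `1` up to `b^(-K)`, hence, as `X` is not a
Liouville number, the digits `y₀ … y_{K'-1}`. This contradicts the positivity of the entropy. So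
`Q_l → 0`, and a law of large numbers gives the claim. Then we use a weighted Weyl criterion in several
variables.
-/

set_option autoImplicit false

open MeasureTheory Filter Topology

namespace Pool.Agent.Results.MP_175f55_nt.AlgebraicMultiples

/-- `w` stands in `z` at the places `n + 1, …, n + k` after the point (base `b` digits) -/
def StandsAt {b k : ℕ} (w : Fin k → Fin b) (z : ℝ) (n : ℕ) : Prop :=
  ∀ i : Fin k, ⌊z * (b : ℝ) ^ (n + 1 + (i : ℕ))⌋ % b = ((w i : ℕ) : ℤ)

/-- `z` is normal in base `b`: every word of length `k` occurs in the digits of `z` with frequency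
`1 / b ^ k` -/
def Normal (b : ℕ) (z : ℝ) : Prop :=
  ∀ k : ℕ, 0 < k → ∀ w : Fin k → Fin b,
    Tendsto (fun N : ℕ => (({n : ℕ | n < N ∧ StandsAt w z n}.ncard : ℕ) : ℝ) / N) atTop
      (𝓝 (1 / (b : ℝ) ^ k))

/-- the σ-algebra generated by the coordinates before time `0` -/
@[reducible] def Past (b : ℕ) : MeasurableSpace (ℤ → Fin b) :=
  MeasurableSpace.comap (fun (y : ℤ → Fin b) (i : Set.Iio (0 : ℤ)) => y i) MeasurableSpace.pi

/-- `μ` is the law of an ergodic stationary process `(y_j)`, `j ∈ ℤ`, of base `b` digits whose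
present `y₀` is not determined by its past `(y_j)`, `j < 0`. (Such processes are those of positive
entropy.) -/
structure PositiveEntropyProcess (b : ℕ) (μ : Measure (ℤ → Fin b)) : Prop where
  prob : IsProbabilityMeasure μ
  ergodic : Ergodic (fun (y : ℤ → Fin b) (j : ℤ) => y (j + 1)) μ
  not_determined : ∃ d : Fin b, ∀ A : Set (ℤ → Fin b), MeasurableSet[Past b] A →
    ¬ (A =ᵐ[μ] {y | y 0 = d})

/-- the real number `0.y₀y₁y₂…` in base `b` -/
noncomputable def number {b : ℕ} (y : ℤ → Fin b) : ℝ := Real.ofDigits (fun j : ℕ => y j)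

/-- Along the places of `S`, the digits of `y` and of the numbers `z i` are asymptotically independent,
the latter uniformly distributed: if `u` stands in `y` at `c_N` of the places `n < N`, `n ∈ S`, then all
the words `w i` stand in the numbers `z i` at `c_N / b ^ (sum of their lengths) + o(N)` of these. -/
def JointlyIndependent {b r : ℕ} (S : Set ℕ) (y : ℤ → Fin b) (z : Fin r → ℝ) : Prop :=
  ∀ (j : ℕ) (u : Fin j → Fin b) (k : Fin r → ℕ) (w : ∀ i : Fin r, Fin (k i) → Fin b),
    Tendsto (fun N : ℕ =>
      ((({n : ℕ | n < N ∧ n ∈ S ∧ (∀ i : Fin j, y ((n + (i : ℕ) : ℕ) : ℤ) = u i) ∧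
          ∀ i : Fin r, StandsAt (w i) (z i) n}.ncard : ℕ) : ℝ) -
        (({n : ℕ | n < N ∧ n ∈ S ∧
          (∀ i : Fin j, y ((n + (i : ℕ) : ℕ) : ℤ) = u i)}.ncard : ℕ) : ℝ) /
            (b : ℝ) ^ (∑ i, k i)) / N)
      atTop (𝓝 0)

theorem number_eq {b : ℕ} (y : ℤ → Fin b) : number y = Pool.Agent.Helper5.KM.val y := by
  unfold number Real.ofDigits Pool.Agent.Helper5.KM.val
  refine tsum_congr fun j => ?_
  rw [Real.ofDigitsTerm, div_eq_mul_inv]

theorem normal_of_jointly {b r : ℕ} (y : ℤ → Fin b) (z : Fin r → ℝ)
    (h : JointlyIndependent Set.univ y z) (i₀ : Fin r) : Normal b (z i₀) := by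
  classical
  intro k hk w
  set K : Fin r → ℕ := fun i => if i = i₀ then k else 0 with hK
  set W : ∀ i : Fin r, Fin (K i) → Fin b := fun i p =>
    if h : i = i₀ then w ⟨p, by have := p.2; simp only [hK, h, if_true] at this; exact this⟩
    else (Fin.elim0 (by simpa only [hK, if_neg h] using p)) with hW
  have h1 := h 0 (fun i => i.elim0) K W
  have h2 : Tendsto (fun N : ℕ => ((N : ℝ) / (b : ℝ) ^ k) / N) atTop (𝓝 (1 / (b : ℝ) ^ k)) := by
    refine tendsto_const_nhds.congr' ?_
    filter_upwards [eventually_gt_atTop 0] with N hN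
    have hN' : (N : ℝ) ≠ 0 := by exact_mod_cast hN.ne'
    field_simp
  have h3 := h1.add h2
  rw [zero_add] at h3
  refine h3.congr fun N => ?_
  rw [← add_div]
  congr 1
  have e1 : {n : ℕ | n < N ∧ n ∈ Set.univ ∧
      (∀ i : Fin 0, y ((n + (i : ℕ) : ℕ) : ℤ) = (fun i => i.elim0 : Fin 0 → Fin b) i)} =
      ((Finset.range N : Finset ℕ) : Set ℕ) := by
    ext n
    simp
  have e0 : ∀ n : ℕ, (∀ i : Fin r, StandsAt (W i) (z i) n) ↔ StandsAt w (z i₀) n := by
    intro n
    constructor
    · intro hn p
      have hp : (p : ℕ) < K i₀ := by simp only [hK, if_true]; exact p.2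
      have := hn i₀ ⟨p, hp⟩
      simpa only [hW, dif_pos] using this
    · intro hn i p
      by_cases hi : i = i₀
      · subst hi
        have hp : (p : ℕ) < k := by
          have := p.2
          simp only [hK, if_true] at this
          exact this
        have := hn ⟨p, hp⟩
        simpa only [hW, dif_pos] using this
      · have hp := p.2
        simp only [hK, if_neg hi] at hp
        omega
  have e2 : {n : ℕ | n < N ∧ n ∈ Set.univ ∧
      (∀ i : Fin 0, y ((n + (i : ℕ) : ℕ) : ℤ) = (fun i => i.elim0 : Fin 0 → Fin b) i) ∧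
      ∀ i : Fin r, StandsAt (W i) (z i) n} = {n : ℕ | n < N ∧ StandsAt w (z i₀) n} := by
    ext n
    simp only [Set.mem_ofPred_eq, e0]
    simp
  have e3 : ∑ i, K i = k := by
    simp [hK]
  rw [e1, e2, e3, Set.ncard_coe_finset, Finset.card_range]
  ring

/-- **For every ergodic process of positive entropy the numbers `x_i Y + c_i`, where `x_i` are real
algebraic numbers, linearly independent together with `1` over the rationals, are almost surely
normal, and their digits and those of `Y` are independent.** -/
theorem result (b : ℕ) (hb : 2 ≤ b) (μ : Measure (ℤ → Fin b)) (hμ : PositiveEntropyProcess b μ)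
    (r : ℕ) (x c : Fin r → ℝ)
    (hx : ((∀ i, IsAlgebraic ℚ (x i)) ∧
        ∀ m : Fin r → ℤ, m ≠ 0 → Irrational (∑ i, (m i : ℝ) * x i)) ∨
      (∀ m : Fin r → ℤ, m ≠ 0 →
        Irrational (∑ i, (m i : ℝ) * x i) ∧ ¬ Liouville (∑ i, (m i : ℝ) * x i))) :
    (∀ᵐ y ∂μ, ∀ i : Fin r, Normal b (x i * number y + c i)) ∧
    ∀ S : Set ℕ, ∀ᵐ y ∂μ, JointlyIndependent S y (fun i => x i * number y + c i) := by
  have := hμ.prob
  have hK : Pool.Agent.Helper5.NE.EProc b μ := ⟨hμ.ergodic, hμ.not_determined⟩
  have hD : ∀ m : Fin r → ℤ, m ≠ 0 → Pool.Agent.Helper5.KM.Dio (∑ i, (m i : ℝ) * x i) := by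
    rcases hx with ⟨h1, h2⟩ | h
    · intro m hm
      refine Pool.Agent.Helper5.PE.dio_alg x h1 (fun q m' hm' => ?_) m hm
      by_contra hne
      exact h2 m' hne ⟨q, hm'.symm⟩
    · intro m hm
      exact Pool.Agent.Helper5.PE.dio_one (h m hm).1 (h m hm).2
  have hS : ∀ S : Set ℕ, ∀ᵐ y ∂μ, JointlyIndependent S y (fun i => x i * number y + c i) := by
    intro S
    filter_upwards [Pool.Agent.Helper5.PE.joint_multi hb hK x c hD S] with y hy
    rw [number_eq]
    exact hy
  refine ⟨?_, hS⟩
  filter_upwards [hS Set.univ] with y hy i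
  exact normal_of_jointly y _ hy i

end Pool.Agent.Results.MP_175f55_nt.AlgebraicMultiples
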