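import Mathlib
import Pool.Agent.Helper5.PE.Roots

/-!
# The roots of `x + 0.0…0y₀y₁y₂…` for the typical points `y` of a process of positive entropy

Q1 asks whether every digit occurs infinitely often in `√2`. We show that for EVERY ergodic stationary
process `(y_j)`, `j ∈ ℤ`, of base `b` digits whose present is not determined by its past (that is, of
positive entropy), for all distinct `x₁, …, x_r > 0` and all `m`, almost surely, the numbers
`√(x_i + 0.y₀y₁y₂… / b^m)` are normal in the same base `b`, and their digits and those of `y` are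
asymptotically independent, along every set `S` of places fixed in advance. (The digits of `y` may omit a
digit, or be far from independent; for `x = 2`, `b = 10` the number under the root is
`2.00…0y₀y₁y₂…`.) In place of the roots any functions `f₁, …, f_r` of class `C²` will do, at the points where
no nontrivial combination of their second derivatives with integer coefficients vanishes.

Proof. Let `F = Σ m_i f_i`. Near the place `n` the number `b^n F(0.y)` is, up to a small error and an
integer, `b^n F(p) + b^L F'(p) (0.y_{n-L}y_{n-L+1}…)`, where `p = 0.y₀…y_{n-L-1}` is measurable with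
respect to the past. A law of large numbers (orthogonality), uniform in the frozen parameter, bounds the
limsup of the averages of the exponentials at `y` by `E|E[e(b^L X 0.y)|past]|`, `X = F'(0.y)`. These tend to
`0` as `L → ∞`, unless `X` is exceptional; for exceptional `X` an entropy argument gives, for all large
`K'`, an integer `0 < D < b^{K'}` with `b^j X D` nearly an integer for most `j < C₀ K'`; so `X` lies in a set
which is covered by `exp(s C₀ K')` intervals of length `b^{-C₀ K'}`, `s` as small as we please. As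
`F''(0.y) ≠ 0`, the points `y` with such `X = F'(0.y)` are covered by as few cylinders, and they form a null
set, since the entropy is positive. Finally the functions `(x_i + t)^(-3/2)` are linearly independent,
analytic, and the law of `0.y` has no atoms.
-/

set_option autoImplicit false

open MeasureTheory Filter Topology

namespace Pool.Agent.Results.MP_175f55_nt.PositiveEntropyUnderTheRoot

/-- `w` stands in `z` at the places `n + 1, …, n + k` after the point (base `b` digits) -/
def StandsAt {b k : ℕ} (w : Fin k → Fin b) (z : ℝ) (n : ℕ) : Prop :=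
  ∀ i : Fin k, ⌊z * (b : ℝ) ^ (n + 1 + (i : ℕ))⌋ % b = ((w i : ℕ) : ℤ)

/-- `z` is normal in base `b`: every word of length `k` occurs in the digits of `z` with frequency
`1 / b ^ k` -/
def Normal (b : ℕ) (z : ℝ) : Prop :=
  ∀ k : ℕ, 0 < k → ∀ w : Fin k → Fin b,
    Tendsto (fun N : ℕ => (({n : ℕ | n < N ∧ StandsAt w z n}.ncard : ℕ) : ℝ) / N) atTop
      (𝓝 (1 / (b : ℝ) ^ k))

/-- the σ-algebra generated by the coordinates before time `0` -/
@[reducible] def Past (b : ℕ) : MeasurableSpace (ℤ → Fin b) :=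
  MeasurableSpace.comap (fun (y : ℤ → Fin b) (i : Set.Iio (0 : ℤ)) => y i) MeasurableSpace.pi

/-- `μ` is the law of an ergodic stationary process `(y_j)`, `j ∈ ℤ`, of base `b` digits whose
present `y₀` is not determined by its past `(y_j)`, `j < 0`. (Such processes are those of positive
entropy.) -/
structure PositiveEntropyProcess (b : ℕ) (μ : Measure (ℤ → Fin b)) : Prop where
  prob : IsProbabilityMeasure μ
  ergodic : Ergodic (fun (y : ℤ → Fin b) (j : ℤ) => y (j + 1)) μ
  not_determined : ∃ d : Fin b, ∀ A : Set (ℤ → Fin b), MeasurableSet[Past b] A →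
    ¬ (A =ᵐ[μ] {y | y 0 = d})

/-- the real number `0.y₀y₁y₂…` in base `b` -/
noncomputable def number {b : ℕ} (y : ℤ → Fin b) : ℝ := Real.ofDigits (fun j : ℕ => y j)

/-- Along the places of `S`, the digits of `y` and of the numbers `z i` are asymptotically independent,
the latter uniformly distributed: if `u` stands in `y` at `c_N` of the places `n < N`, `n ∈ S`, then all
the words `w i` stand in the numbers `z i` at `c_N / b ^ (sum of their lengths) + o(N)` of these. -/
def JointlyIndependent {b r : ℕ} (S : Set ℕ) (y : ℤ → Fin b) (z : Fin r → ℝ) : Prop :=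
  ∀ (j : ℕ) (u : Fin j → Fin b) (k : Fin r → ℕ) (w : ∀ i : Fin r, Fin (k i) → Fin b),
    Tendsto (fun N : ℕ =>
      ((({n : ℕ | n < N ∧ n ∈ S ∧ (∀ i : Fin j, y ((n + (i : ℕ) : ℕ) : ℤ) = u i) ∧
          ∀ i : Fin r, StandsAt (w i) (z i) n}.ncard : ℕ) : ℝ) -
        (({n : ℕ | n < N ∧ n ∈ S ∧
          (∀ i : Fin j, y ((n + (i : ℕ) : ℕ) : ℤ) = u i)}.ncard : ℕ) : ℝ) /
            (b : ℝ) ^ (∑ i, k i)) / N)
      atTop (𝓝 0)

theorem number_eq {b : ℕ} (y : ℤ → Fin b) : number y = Pool.Agent.Helper5.KM.val y := by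
  unfold number Real.ofDigits Pool.Agent.Helper5.KM.val
  refine tsum_congr fun j => ?_
  rw [Real.ofDigitsTerm, div_eq_mul_inv]

theorem normal_of_jointly {b r : ℕ} (y : ℤ → Fin b) (z : Fin r → ℝ)
    (h : JointlyIndependent Set.univ y z) (i₀ : Fin r) : Normal b (z i₀) := by
  classical
  intro k hk w
  set K : Fin r → ℕ := fun i => if i = i₀ then k else 0 with hK
  set W : ∀ i : Fin r, Fin (K i) → Fin b := fun i p =>
    if h : i = i₀ then w ⟨p, by have := p.2; simp only [hK, h, if_true] at this; exact this⟩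
    else (Fin.elim0 (by simpa only [hK, if_neg h] using p)) with hW
  have h1 := h 0 (fun i => i.elim0) K W
  have h2 : Tendsto (fun N : ℕ => ((N : ℝ) / (b : ℝ) ^ k) / N) atTop (𝓝 (1 / (b : ℝ) ^ k)) := by
    refine tendsto_const_nhds.congr' ?_
    filter_upwards [eventually_gt_atTop 0] with N hN
    have hN' : (N : ℝ) ≠ 0 := by exact_mod_cast hN.ne'
    field_simp
  have h3 := h1.add h2
  rw [zero_add] at h3
  refine h3.congr fun N => ?_
  rw [← add_div]
  congr 1
  have e1 : {n : ℕ | n < N ∧ n ∈ Set.univ ∧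
      (∀ i : Fin 0, y ((n + (i : ℕ) : ℕ) : ℤ) = (fun i => i.elim0 : Fin 0 → Fin b) i)} =
      ((Finset.range N : Finset ℕ) : Set ℕ) := by
    ext n
    simp
  have e0 : ∀ n : ℕ, (∀ i : Fin r, StandsAt (W i) (z i) n) ↔ StandsAt w (z i₀) n := by
    intro n
    constructor
    · intro hn p
      have hp : (p : ℕ) < K i₀ := by simp only [hK, if_true]; exact p.2
      have := hn i₀ ⟨p, hp⟩
      simpa only [hW, dif_pos] using this
    · intro hn i p
      by_cases hi : i = i₀
      · subst hi
        have hp : (p : ℕ) < k := by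
          have := p.2
          simp only [hK, if_true] at this
          exact this
        have := hn ⟨p, hp⟩
        simpa only [hW, dif_pos] using this
      · have hp := p.2
        simp only [hK, if_neg hi] at hp
        omega
  have e2 : {n : ℕ | n < N ∧ n ∈ Set.univ ∧
      (∀ i : Fin 0, y ((n + (i : ℕ) : ℕ) : ℤ) = (fun i => i.elim0 : Fin 0 → Fin b) i) ∧
      ∀ i : Fin r, StandsAt (W i) (z i) n} = {n : ℕ | n < N ∧ StandsAt w (z i₀) n} := by
    ext n
    simp only [Set.mem_ofPred_eq, e0]
    simp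
  have e3 : ∑ i, K i = k := by
    simp [hK]
  rw [e1, e2, e3, Set.ncard_coe_finset, Finset.card_range]
  ring

/-- **The roots of `x_i + 0.y₀y₁y₂… / b^m` are normal, and their digits are independent of each other
and of those of `y`, for almost every point `y` of every process of positive entropy.** -/
theorem result (b : ℕ) (hb : 2 ≤ b) (μ : Measure (ℤ → Fin b)) (hμ : PositiveEntropyProcess b μ)
    (r : ℕ) :
    (∀ x : Fin r → ℝ, (∀ i, 0 < x i) → Function.Injective x → ∀ (m : ℕ) (S : Set ℕ), ∀ᵐ y ∂μ,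
      (∀ i : Fin r, Normal b (√(x i + number y / (b : ℝ) ^ m))) ∧
      JointlyIndependent S y (fun i : Fin r => √(x i + number y / (b : ℝ) ^ m))) ∧
    (∀ f f' f'' : Fin r → ℝ → ℝ,
      (∀ i, ∀ t ∈ Set.Icc (0 : ℝ) 1, HasDerivWithinAt (f i) (f' i t) (Set.Icc 0 1) t) →
      (∀ i, ∀ t ∈ Set.Icc (0 : ℝ) 1, HasDerivWithinAt (f' i) (f'' i t) (Set.Icc 0 1) t) →
      (∀ i, ContinuousOn (f'' i) (Set.Icc (0 : ℝ) 1)) → ∀ S : Set ℕ, ∀ᵐ y ∂μ,
        (∀ a : Fin r → ℤ, a ≠ 0 → ∑ i, (a i : ℝ) * f'' i (number y) ≠ 0) →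
        (∀ i : Fin r, Normal b (f i (number y))) ∧
        JointlyIndependent S y (fun i : Fin r => f i (number y))) := by
  have := hμ.prob
  have hK : Pool.Agent.Helper5.NE.EProc b μ := ⟨hμ.ergodic, hμ.not_determined⟩
  have key : ∀ f f' f'' : Fin r → ℝ → ℝ,
      (∀ i, ∀ t ∈ Set.Icc (0 : ℝ) 1, HasDerivWithinAt (f i) (f' i t) (Set.Icc 0 1) t) →
      (∀ i, ∀ t ∈ Set.Icc (0 : ℝ) 1, HasDerivWithinAt (f' i) (f'' i t) (Set.Icc 0 1) t) →
      (∀ i, ContinuousOn (f'' i) (Set.Icc (0 : ℝ) 1)) → ∀ S : Set ℕ, ∀ᵐ y ∂μ,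
        (∀ a : Fin r → ℤ, a ≠ 0 → ∑ i, (a i : ℝ) * f'' i (number y) ≠ 0) →
        (∀ i : Fin r, Normal b (f i (number y))) ∧
        JointlyIndependent S y (fun i : Fin r => f i (number y)) := by
    intro f f' f'' h1 h2 h3 S
    filter_upwards [Pool.Agent.Helper5.PE.joint_nonlinear hb hK f f' f'' h1 h2 h3 S,
      Pool.Agent.Helper5.PE.joint_nonlinear hb hK f f' f'' h1 h2 h3 Set.univ] with y hy hy' h0
    have e1 := number_eq y
    rw [e1] at h0 ⊢
    have h4 := hy' (fun a ha => Or.inl (h0 a ha))
    exact ⟨fun i => normal_of_jointly y (fun i : Fin r =>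
      f i (Pool.Agent.Helper5.KM.val y)) h4 i, hy (fun a ha => Or.inl (h0 a ha))⟩
  refine ⟨?_, key⟩
  intro x hx hinj m S
  have hb0 : (0 : ℝ) < b := by exact_mod_cast (by omega : 0 < b)
  set c : ℝ := 1 / (b : ℝ) ^ m with hc
  have hc0 : 0 < c := by positivity
  have hd := fun i => Pool.Agent.Helper5.NE.root_derivs (hx i) hc0.le
  have hpos : ∀ i, ∀ t ∈ Set.Icc (0 : ℝ) 1, 0 < √(x i + c * t) := fun i t ht =>
    Real.sqrt_pos.2 (by have := mul_nonneg hc0.le ht.1; have := hx i; linarith)
  have h3 : ∀ i, ContinuousOn (fun t => c / 2 * (-(c / (2 * √(x i + c * t))) /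
      (√(x i + c * t)) ^ 2)) (Set.Icc (0 : ℝ) 1) := by
    intro i
    have h4 : Continuous (fun t : ℝ => √(x i + c * t)) := by fun_prop
    refine ContinuousOn.mul continuousOn_const (ContinuousOn.div ?_ (h4.pow 2).continuousOn ?_)
    · refine (ContinuousOn.div continuousOn_const (continuous_const.mul h4).continuousOn ?_).neg
      intro t ht
      exact (mul_pos two_pos (hpos i t ht)).ne'
    · intro t ht
      exact (pow_pos (hpos i t ht) 2).ne'
  have hne : ∀ᵐ y ∂μ, ∀ a : Fin r → ℤ, a ≠ 0 →
      ∑ i, (a i : ℝ) * ((√(x i + c * number y)) ^ 3)⁻¹ ≠ 0 := by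
    rw [ae_all_iff]
    intro a
    rw [ae_all_iff]
    intro ha
    have h4 := Pool.Agent.Helper5.PE.finite_zeros x hx hinj hc0 (fun i => (a i : ℝ)) (fun h => ha (by
      funext i
      have := congrFun h i
      simpa using this))
    have h5 : μ (⋃ v ∈ {t : ℝ | t ∈ Set.Icc (0 : ℝ) 1 ∧
        ∑ i, (a i : ℝ) * ((√(x i + c * t)) ^ 3)⁻¹ = 0},
        {y | Pool.Agent.Helper5.KM.val y = v}) = 0 := by
      rw [measure_biUnion_null_iff h4.countable]
      intro v _
      exact Pool.Agent.Helper5.PE.no_atoms hb hK v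
    have h6 := measure_eq_zero_iff_ae_notMem.1 h5
    filter_upwards [h6] with y hy h7
    apply hy
    rw [number_eq] at h7
    simp only [Set.mem_iUnion]
    exact ⟨Pool.Agent.Helper5.KM.val y, ⟨⟨Pool.Agent.Helper5.KM.val_nonneg y,
      Pool.Agent.Helper5.KM.val_le_one hb y⟩, h7⟩, rfl⟩
  filter_upwards [key _ _ _ (fun i => (hd i).1) (fun i => (hd i).2) h3 S, hne] with y hy hy0
  have h9 : ∀ i, x i + number y / (b : ℝ) ^ m = x i + c * number y := by
    intro i
    rw [hc]; ring
  simp only [h9]
  refine hy fun a ha h0 => hy0 a ha ?_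
  have h10 : ∑ i, (a i : ℝ) * (c / 2 * (-(c / (2 * √(x i + c * number y))) /
      (√(x i + c * number y)) ^ 2)) =
      (-(c ^ 2 / 4)) * ∑ i, (a i : ℝ) * ((√(x i + c * number y)) ^ 3)⁻¹ := by
    rw [Finset.mul_sum]
    refine Finset.sum_congr rfl fun i _ => ?_
    have hy01 : number y ∈ Set.Icc (0 : ℝ) 1 := by
      rw [number_eq]
      exact ⟨Pool.Agent.Helper5.KM.val_nonneg y, Pool.Agent.Helper5.KM.val_le_one hb y⟩
    have h5 := (hpos i _ hy01).ne'
    field_simp
    ring
  rw [h10] at h0
  rcases mul_eq_zero.1 h0 with h11 | h11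
  · have : 0 < c ^ 2 / 4 := by positivity
    linarith
  · exact h11

end Pool.Agent.Results.MP_175f55_nt.PositiveEntropyUnderTheRoot
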